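import Pool.Agent.Q200.SFD.Mot

/-!
# Schur-finiteness of motives and semi-invariant functions

Known facts used as hypotheses: `IsMotives` (`Pool.Agent.Z125.UN.MotDefs`) and `IsMultiplicative`
(`Pool.Agent.Q200.SFD.Mot`), the standard properties of Voevodsky's motives with rational coefficients
over a perfect field.
-/

set_option autoImplicit false

open CategoryTheory MonoidalCategory AlgebraicGeometry MvPolynomial Pool.Agent.TH137.DG
  Pool.Agent.Y116.UV Pool.Agent.Z125.UN Pool.Agent.Q200.SFD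

namespace Pool.Agent.Results.MP_fc2ced_ag.EquivariantFibreProducts

universe v u

variable {k : Type} [Field k] {V : Type u} [Category.{v} V] [MonoidalCategory V]
  [SymmetricCategory V] [Preadditive V] [Linear ℚ V] [Limits.HasZeroObject V] [HasShift V ℤ]
  [∀ n : ℤ, (shiftFunctor V n).Additive] [Pretriangulated V] (D : Motives k V)

/-- The open subscheme `a ≠ 0` of `Spec A`. -/
noncomputable def awayS (A : Type) [CommRing A] [Algebra k A] (a : A) : Sch k :=
  aff k (Localization.Away a)

/-- The locally closed subscheme `G = 0`, `g ≠ 0` of affine space. -/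
noncomputable def lcS {σ κ : Type} (G : κ → MvPolynomial σ k) (g : MvPolynomial σ k) : Sch k :=
  awayS (MvPolynomial σ k ⧸ Ideal.span (Set.range G)) (Ideal.Quotient.mk _ g)

/-- The motives of the smooth separated schemes of finite type and dimension at most `n` are
Schur-finite. -/
def Known (n : ℕ) : Prop :=
  ∀ X : Sch k, FT True X → Smooth X.hom → topologicalKrullDim X.left ≤ n → IsSchurFinite (D.M X)

/-- The motive with compact support of the locally closed subscheme `G = 0`, `g ≠ 0` of affine space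
is Schur-finite, and so is its motive if it is smooth. -/
def Finite' {σ κ : Type} (G : κ → MvPolynomial σ k) (g : MvPolynomial σ k) : Prop :=
  IsSchurFinite (D.Mc (lcS G g)) ∧
    (Smooth (lcS G g).hom → IsSchurFinite (D.M (lcS G g)))

/-- The affine scheme `X : G_j (x) = 0` with the action of the multiplicative group with the weights
`w` and the function `F` on `X` of weight `N > 0` (the `G_j` and `F` are weighted homogeneous) are
such that the subschemes `F = 0` and `F = 1` of `X` have Schur-finite motives with compact support. -/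
structure Good {σ κ : Type} (G : κ → MvPolynomial σ k) (F : MvPolynomial σ k) (w : σ → ℤ)
    (N : ℕ) : Prop where
  eqs : ∀ j, ∃ d : ℤ, IsWeightedHomogeneous w (G j) d
  homog : IsWeightedHomogeneous w F (N : ℤ)
  pos : 0 < N
  zero : IsSchurFinite (D.Mc (lcS (adj G F) 1))
  level : IsSchurFinite (D.Mc (lcS (adj G (F - 1)) 1))

variable {D}

omit [Limits.HasZeroObject V] [HasShift V ℤ] [∀ n : ℤ, (shiftFunctor V n).Additive]
  [Pretriangulated V] in
lemma good_iff {σ κ : Type} {G : κ → MvPolynomial σ k} {F : MvPolynomial σ k} {w : σ → ℤ}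
    {N : ℕ} : Good D G F w N ↔ Sp (fun X : Sch k => IsSchurFinite (D.Mc X)) G F w N :=
  ⟨fun h => ⟨h.1, h.2, h.3, h.4, h.5⟩, fun h => ⟨h.1, h.2, h.3, h.4, h.5⟩⟩

lemma fin_of (hD : IsMotives D) {σ κ : Type} [Finite σ] {G : κ → MvPolynomial σ k}
    {g : MvPolynomial σ k} (h : IsSchurFinite (D.Mc (aff k (Pc G g)))) : Finite' D G g :=
  ⟨h, fun hs => (hD.duality _ (ft_aff True) hs).mpr h⟩

variable (D)

/-- Schemes `X` with functions `F` of positive weight such that the subschemes `F = 0` and `F = 1` have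
dimension at most `n` are good. -/
def Small (n : ℕ) : Prop :=
  ∀ (σ κ : Type) [Finite σ] (G : κ → MvPolynomial σ k) (F : MvPolynomial σ k) (w : σ → ℤ)
    (N : ℕ), (∀ j, ∃ d : ℤ, IsWeightedHomogeneous w (G j) d) →
    IsWeightedHomogeneous w F (N : ℤ) → 0 < N → topologicalKrullDim (lcS (adj G F) 1).left ≤ n →
    topologicalKrullDim (lcS (adj G (F - 1)) 1).left ≤ n → Good D G F w N

/-- All polynomials of positive weight on affine spaces of dimension `1, …, n + 1` are good. -/
def Space (n : ℕ) : Prop :=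
  ∀ (m : ℕ), m ≤ n → ∀ (F : MvPolynomial (Fin (m + 1)) k) (w : Fin (m + 1) → ℤ) (N : ℕ),
    IsWeightedHomogeneous w F (N : ℤ) → 0 < N →
    Good D (Empty.elim : Empty → MvPolynomial (Fin (m + 1)) k) F w N

/-- Trilinear forms with a block of at most `n + 2` variables are good. -/
def Trilinear (n : ℕ) : Prop :=
  ∀ (a b c : ℕ) (T : Fin a → Fin b → Fin c → k), (a ≤ n + 2 ∨ b ≤ n + 2 ∨ c ≤ n + 2) →
    Good D (Empty.elim : Empty → MvPolynomial (Fin a ⊕ (Fin b ⊕ Fin c)) k) (tri T) (fun _ => 1) 3

/-- Fibre products of good pairs `(X_i, F_i)` over a base `S : H = 0, u ≠ 0` of dimension at most `n`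
with functions `e_i`: the subscheme of `S × ∏ X_i` of the points `(t, x_1, …, x_m)` with
`F_i (x_i) = e_i (t)` for all `i`. -/
def Fibre (n : ℕ) : Prop :=
  ∀ (m : ℕ) (σ κ : Fin m → Type) [∀ i, Finite (σ i)] (G : ∀ i, κ i → MvPolynomial (σ i) k)
    (F : ∀ i, MvPolynomial (σ i) k) (w : ∀ i, σ i → ℤ) (N : Fin m → ℕ),
    (∀ i, Good D (G i) (F i) (w i) (N i)) → ∀ (τ ι : Type) [Finite τ] (H : ι → MvPolynomial τ k)
    (u : MvPolynomial τ k) (e : Fin m → MvPolynomial τ k), topologicalKrullDim (lcS H u).left ≤ n →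
    Finite' D (mf H G F e) (rename Sum.inr u)

/-- Preimages in `∏ X_i` of the locally closed subschemes `h = 0`, `g ≠ 0`, not all `h_j` zero, of
affine space of dimension `1, …, n + 1` under `(F_i)`, for good pairs `(X_i, F_i)`. -/
def Preimage (n : ℕ) : Prop :=
  ∀ (m : ℕ), m ≤ n → ∀ (σ κ : Fin (m + 1) → Type) [∀ i, Finite (σ i)]
    (G : ∀ i, κ i → MvPolynomial (σ i) k) (F : ∀ i, MvPolynomial (σ i) k) (w : ∀ i, σ i → ℤ)
    (N : Fin (m + 1) → ℕ), (∀ i, Good D (G i) (F i) (w i) (N i)) → ∀ (ι : Type)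
    (h : ι → MvPolynomial (Fin (m + 1)) k) (g : MvPolynomial (Fin (m + 1)) k), (∃ j, h j ≠ 0) →
    Finite' D (prr G F h) (cmm F g)

/-- Compositions of good pairs with weighted homogeneous polynomials in `1, …, n + 1` variables. -/
def Compositions (n : ℕ) : Prop :=
  ∀ (m : ℕ), m ≤ n → ∀ (σ κ : Fin (m + 1) → Type) [∀ i, Finite (σ i)]
    (G : ∀ i, κ i → MvPolynomial (σ i) k) (F : ∀ i, MvPolynomial (σ i) k) (w : ∀ i, σ i → ℤ)
    (N : Fin (m + 1) → ℕ), (∀ i, Good D (G i) (F i) (w i) (N i)) →
    ∀ (h : MvPolynomial (Fin (m + 1)) k) (L : ℕ), h ≠ 0 → 0 < L → IsWeightedHomogeneous N h L →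
    Good D (allr G) (cmm F h) (fun x => w x.1 x.2) L

/-- Sums of any number of good pairs. -/
def Sums (n : ℕ) : Prop :=
  1 ≤ n → ∀ (m : ℕ) (σ κ : Fin m → Type) [∀ i, Finite (σ i)]
    (G : ∀ i, κ i → MvPolynomial (σ i) k) (F : ∀ i, MvPolynomial (σ i) k) (w : ∀ i, σ i → ℤ)
    (N : Fin m → ℕ), (∀ i, Good D (G i) (F i) (w i) (N i)) →
    ∃ v, Good D (allr G) (∑ i, rename (Sigma.mk i) (F i)) v (∏ i, N i)

/-- The scheme `X` and the levels `F = c` for a good pair `(X, F)`. -/
def Levels : Prop :=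
  ∀ (σ κ : Type) [Finite σ] (G : κ → MvPolynomial σ k) (F : MvPolynomial σ k) (w : σ → ℤ)
    (N : ℕ), Good D G F w N → Finite' D G 1 ∧ ∀ c : k, Finite' D (adj G (F - C c)) 1

/-- The ring of functions of the hypersurface `F = c` in affine space. -/
abbrev Hs {σ : Type} (F : MvPolynomial σ k) (c : k) : Type :=
  MvPolynomial σ k ⧸ Ideal.span {F - C c}

/-- The polynomial `f_1 (x_1, y_1) + … + f_r (x_r, y_r)` in `2 r` variables. -/
noncomputable def sumF {r : ℕ} (f : Fin r → MvPolynomial (Fin 2) k) :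
    MvPolynomial (Σ _ : Fin r, Fin 2) k := ∑ i, rename (Sigma.mk i) (f i)

/-- The affine variety `f_1 (x_1, y_1) + … + f_r (x_r, y_r) = c`. -/
noncomputable def sumS {r : ℕ} (f : Fin r → MvPolynomial (Fin 2) k) (c : k) : Sch k :=
  aff k (Hs (sumF f) c)

variable {D}

/-- **Schur-finiteness of motives and semi-invariant functions.** If the motives of the smooth schemes
of dimension at most `n` over the perfect field `k` are Schur-finite (this is known for `n = 1`), then
the eight statements are true. In particular (`n = 1`), for binary weighted homogeneous polynomials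
`f_1, …, f_r`, with any weights and with positive degrees which are not divisible by the
characteristic, and `c ≠ 0`, the motive of the smooth affine variety
`f_1 (x_1, y_1) + … + f_r (x_r, y_r) = c` is Schur-finite. -/
theorem result [PerfectField k] (hD : IsMotives D) (hM : IsMultiplicative D) :
    (∀ n : ℕ, Known D n → Small D n ∧ Space D n ∧ Trilinear D n ∧ Fibre D n ∧ Preimage D n ∧
      Compositions D n ∧ Sums D n ∧ Levels D) ∧
    Known D 1 ∧
    ∀ (r : ℕ) (f : Fin r → MvPolynomial (Fin 2) k) (w : Fin r → Fin 2 → ℤ) (N : Fin r → ℕ),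
      (∀ i, IsWeightedHomogeneous (w i) (f i) (N i : ℤ)) → (∀ i, (N i : k) ≠ 0) →
      ∀ c : k, c ≠ 0 → Smooth (sumS f c).hom ∧ IsSchurFinite (D.M (sumS f c)) := by
  have hP := cov_sf hD hM
  have k1 : Known D 1 := fun X hX hs hn => hD.curves X hX hs hn
  refine ⟨fun n hn => ?_, k1, ?_⟩
  · have hd := dm_sf hD hn
    refine ⟨?_, ?_, ?_, ?_, ?_, ?_, ?_, ?_⟩
    · intro σ κ _ G F w N hG hF hN d0 d1
      exact good_iff.2 (Sp.small hd hG hF hN ((topDim_aff (Pc (adj G F) 1)).symm.le.trans d0)
        ((topDim_aff (Pc (adj G (F - 1)) 1)).symm.le.trans d1))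
    · intro m hm F w N hF hN
      exact good_iff.2 (sp_small hP hd hm hF hN)
    · intro a b c T hm
      exact good_iff.2 (sp_tri hP T (tri_sf hD hd T hm))
    · intro m σ κ _ G F w N hF τ ι _ H u e hu
      exact fin_of hD (many hP hd m σ κ inferInstance G F w N (fun i => good_iff.1 (hF i)) τ ι
        inferInstance H u ((topDim_aff (Pc H u)).symm.le.trans hu) e)
    · intro m hm σ κ _ G F w N hF ι h g h0
      exact fin_of hD (pre_all hP hd hm (fun i => good_iff.1 (hF i)) h h0 g)
    · intro m hm σ κ _ G F w N hF h L h0 hL hh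
      exact good_iff.2 (Sp.comp hP hd hm (fun i => good_iff.1 (hF i)) h0 hL hh)
    · intro h1 m σ κ _ G F w N hF
      obtain ⟨v, hv⟩ := Sp.sum hP hd h1 m σ κ inferInstance G F w N fun i => good_iff.1 (hF i)
      exact ⟨v, good_iff.2 hv⟩
    · intro σ κ _ G F w N hF
      exact ⟨fin_of hD (Sp.total hP (good_iff.1 hF)),
        fun c => fin_of hD (Sp.lv hP hd (good_iff.1 hF) c)⟩
  · intro r f w N hf hN c hc
    have hd := dm_sf hD k1
    have hN' : ∀ i, 0 < N i := by
      intro i
      rcases Nat.eq_zero_or_pos (N i) with h | h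
      · exact absurd (by rw [h, Nat.cast_zero]) (hN i)
      · exact h
    obtain ⟨v, hv⟩ := Sp.sum hP hd le_rfl r (fun _ => Fin 2) (fun _ => Empty)
      (fun _ => inferInstance) (fun _ => Empty.elim) f w N
      fun i => sp_small hP hd le_rfl (hf i) (hN' i)
    have hL : ((∏ i, N i : ℕ) : k) ≠ 0 := by
      rw [Nat.cast_prod]
      exact Finset.prod_ne_zero_iff.2 fun i _ => hN i
    have hsm : Smooth (sumS f c).hom := smooth_aff (smooth_level hv.homog hL hc)
    refine ⟨hsm, (hD.duality _ (ft_aff True) hsm).mpr ?_⟩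
    have h1 := hv.lv hP hd c
    have h2 : Ideal.span (Set.range (adj (allr fun _ : Fin r => (Empty.elim : Empty →
        MvPolynomial (Fin 2) k)) (∑ i, rename (Sigma.mk i) (f i) - C c))) =
        Ideal.span {∑ i, rename (Sigma.mk i) (f i) - C c} := by
      congr 1
      ext p
      constructor
      · rintro ⟨_ | ⟨_, ⟨⟩⟩, rfl⟩
        rfl
      · rintro rfl
        exact ⟨none, rfl⟩
    exact iso_alg hP.toUni ((oneE _).symm.trans (Ideal.quotientEquivAlgOfEq k h2)) h1

end Pool.Agent.Results.MP_fc2ced_ag.EquivariantFibreProducts
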