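import Pool.Agent.Q20.PI.Main

/-!
# Schur finiteness and polynomial identities of the endomorphism rings of tensor powers

`C` is a `ℚ`-linear rigid symmetric monoidal category, for example the category `DM_gm(k)_ℚ` of
geometric motives over a perfect field, and `M` is an object of `C`. Nothing is assumed on the
endomorphisms of the unit object, and the morphism spaces may be infinite dimensional.

The theorem says that the least degree of a polynomial identity of the rings `End(M^k)` grows at most
exponentially with `k` if `M` is Schur-finite, and faster than exponentially (at least like
`2 √(k! / 2^(k-1))`; there may be no identity at all) if `M` is not Schur-finite: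

* if a Schur functor of degree `n + 1` kills `M` then, for all `k` and all `d ≥ 4 (n+1)^(2k)`, the
  ring `End(M^k)` satisfies a multilinear polynomial identity of degree `d` with rational
  coefficients, not all zero;
* if the ring `End(M^(k+1))` satisfies an identity of degree `d`, for one `k` and one `d` with
  `2^k d² < 4 (k+1)!`, then a Schur functor of degree `k + 1` kills `M`.

So Schur finiteness is a property of the rings `End(M^k)` (without their tensor structure), and one
ring `End(M^k)` satisfying an identity of small degree suffices.

Proof. First part: a relation between the permutations of `n + 1` factors allows one to write every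
permutation of the `m + 1` factors of `M^(m+1)` as a combination of permutations without decreasing
subsequences of length `n + 1`, and there are at most `n^(2(m+1))` of these; by the compatibility of
the symmetries with tensor products the permutations of the factors of `(M^k)^(m+1)` span a space of
dimension at most `n^(2(m+1)k)`. If this is less than `m!`, there is a relation between the `m!`
cyclic permutations of the `m + 1` factors of `(M^k)^(m+1)`. Compose it with `1 ⊗ x_1 ⊗ ⋯ ⊗ x_m` and
contract all factors but the first: the cycles become the products of the `x_i` in the `m!` orders.
Second part: if `M` is not killed by a Schur functor of degree `k + 1` then `End(M^(k+1))` contains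
the group algebra of the symmetric group, whose complexification is a product of at most `2^k`
matrix algebras; a matrix algebra of rank `r` has no identity of degree less than `2 r`.
-/

set_option autoImplicit false

open CategoryTheory MonoidalCategory

namespace Pool.Agent.Results.MP_fc2ced_ag.IdentitiesOfPowers

open Pool.Agent.Y112.KD Pool.Agent.Q20.Kf Pool.Agent.Q20.PI

universe v u

theorem result {C : Type u} [Category.{v} C] [MonoidalCategory C] [SymmetricCategory C]
    [Preadditive C] [Linear ℚ C] [MonoidalPreadditive C] [MonoidalLinear ℚ C]
    [RightRigidCategory C] (M : C) :
    (∀ n, SchurFiniteAt M n → ∀ k d, 4 * (n + 1) ^ (2 * k) ≤ d →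
      SatisfiesIdentity (End (tp M k)) d) ∧
    (∀ k d, 2 ^ k * d ^ 2 < 4 * (k + 1).factorial → SatisfiesIdentity (End (tp M (k + 1))) d →
      SchurFiniteAt M k) ∧
    [∃ n, SchurFiniteAt M n,
      ∃ K : ℕ, ∀ k, SatisfiesIdentity (End (tp M (k + 1))) (K ^ (k + 1)),
      ∃ k d, 2 ^ k * d ^ 2 < 4 * (k + 1).factorial ∧
        SatisfiesIdentity (End (tp M (k + 1))) d].TFAE :=
  ⟨fun _ h k d hd => identity_of_schur h k d hd, fun _ _ hlt h => schur_of_identity hlt h, gap M⟩

end Pool.Agent.Results.MP_fc2ced_ag.IdentitiesOfPowers
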