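import Pool.Agent.Q226.PSF.Main

set_option autoImplicit false

/-!
# Schur-finiteness of motives in dimension two
-/

open CategoryTheory CategoryTheory.Limits MonoidalCategory Pretriangulated AlgebraicGeometry

universe v u

namespace Pool.Agent.Results.MP_fc2ced_ag.SimplyConnectedSurfaces

open Pool.Agent.Q226.SC (Geo)
open Pool.Agent.Q226.PS (Data)
open Pool.Agent.Q226.PSC (Thick)
open Pool.Agent.Q226.PSF
open Pool.Agent.Y116.UV (Sch FT hypS)
open Pool.Agent.TH137.DG (IsSchurFinite)
open Pool.Agent.Z125.UN (Motives IsMotives)

/-- Let `C` be the category `DM_gm` of geometric motives over the complex numbers with rational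
coefficients, with the motives `M(X)` and the motives with compact support of the complex schemes
(`hM`: standard facts). Let `D` be the Chow motives `h(X)` of the smooth projective connected
varieties, as objects of `C` (`F`, `hL`: known facts), and let `𝒮` be a class of simply connected
surfaces such that every simply connected surface is dominated by a surface in `𝒮`. The following
are equivalent.

1. The motive of every surface in `𝒮` is Schur-finite.

2. The motive `M(X)` is Schur-finite for every smooth separated complex scheme `X` of finite type and
   dimension at most two.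

3. The motive of the smooth affine cubic hypersurface `T(x, y, z) = 1` is Schur-finite for every
   trilinear form `T` with one block of at most four variables (the two other blocks are arbitrary).

4. All objects of the thick triangulated subcategory of `C` generated by the objects
   `h(X_1 × ⋯ × X_r) ⊗ L^i`, where the `X_j` are curves, surfaces or abelian varieties, are
   Schur-finite. -/
theorem result {G : Geo} {C : Type u} [Category.{v} C] [MonoidalCategory C]
    [SymmetricCategory C] [Preadditive C] [Linear ℚ C] [MonoidalPreadditive C] [HasZeroObject C]
    [HasShift C ℤ] [∀ n : ℤ, (shiftFunctor C n).Additive] [Pretriangulated C]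
    (Mot : Motives ℂ C) (hM : IsMotives Mot) (D : Data G C) (F : D.Facts)
    (sch : G.Var → Sch ℂ) (hL : Link Mot D sch) (𝒮 : G.Var → Prop) (h𝒮 : D.Cofinal 𝒮) :
    [∀ S : G.Var, 𝒮 S → IsSchurFinite (Mot.M (sch S)),
      ∀ X : Sch ℂ, FT True X → Smooth X.hom → topologicalKrullDim X.left ≤ 2 →
        IsSchurFinite (Mot.M X),
      ∀ (a b c : ℕ) (T : Fin a → Fin b → Fin c → ℂ), (a ≤ 4 ∨ b ≤ 4 ∨ c ≤ 4) →
        IsSchurFinite (Mot.M (hypS T)),
      ∀ N : C, Thick (ProductObject D) N → IsSchurFinite N].TFAE :=
  main hM F hL h𝒮

end Pool.Agent.Results.MP_fc2ced_ag.SimplyConnectedSurfaces
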