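import Pool.Agent.Q20.Kf.Perm

/-!
# Schur finiteness descends to the factors of a tensor product

`C` is a `ℚ`-linear rigid symmetric monoidal category whose unit object has only rational scalars as
endomorphisms, for example the category `DM_gm(k)_ℚ` of geometric motives over a perfect field.

Theorem. Let `M` and `N` be objects of `C` such that some endomorphism `g` of `N` has non-zero
trace. If `M ⊗ N` is Schur-finite then so is `M`, in the same degree: if `S_λ(M ⊗ N) = 0` for a
partition `λ` of `n` then `S_μ(M) = 0` for some partition `μ` of `n`.

The object `N` is not assumed to be Schur-finite. The condition on `N` holds if the Euler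
characteristic of `N` is not zero; it says that `N` is not a negligible object. (If `N` is
Schur-finite with non-zero Euler characteristic then `M` is a direct summand of the Schur-finite
object `M ⊗ N ⊗ N^∨`, which is the known case; the point is that nothing is known about `N`.)

Proof. Let `z` be a non-zero element of `ℚ[S_n]` which acts as zero on `(M ⊗ N)^n`; then the element
`∑ z_σ σ ⊗ σ` acts as zero on `M^n ⊗ N^n`. Choose `τ` with `z_τ ≠ 0`, compose with
`1 ⊗ (τ⁻¹ ≫ g^n)` and take the partial trace with respect to `N^n`: the element `∑ z_σ c_σ σ` acts as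
zero on `M^n`, where `c_σ` is the trace of `σ τ⁻¹ g^n` on `N^n`. Its coefficient at `τ` is
`z_τ (tr g)^n ≠ 0`.
-/

set_option autoImplicit false

open CategoryTheory MonoidalCategory

namespace Pool.Agent.Results.MP_fc2ced_ag.TensorFactors

open Pool.Agent.Y112.KD Pool.Agent.Q20.Kf
open Pool.Agent.Y116.MT (tr)

universe v u

theorem result {C : Type u} [Category.{v} C] [MonoidalCategory C] [SymmetricCategory C]
    [Preadditive C] [Linear ℚ C] [MonoidalPreadditive C] [MonoidalLinear ℚ C]
    [RightRigidCategory C] (hU : UnitQ C) (M N : C) (g : N ⟶ N) (hg : tr g ≠ 0) (n : ℕ)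
    (h : SchurFiniteAt (M ⊗ N) n) : SchurFiniteAt M n :=
  schurFinite_of_tensor hU M N g hg n h

end Pool.Agent.Results.MP_fc2ced_ag.TensorFactors
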